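import Pool.Agent.helper82.CH.SpecA

/-!
# Project CH, row GEX: Galois theory, the choice of the automorphism `g`
-/

set_option autoImplicit false

open NumberField Complex Pool.Agent.UN

namespace Pool.Agent.CH

theorem GEX_id {K L M : Type} [Field K] [Field L] [Field M] [Algebra K L] [Algebra K M] [Algebra L M]
    [IsScalarTower K L M] (z : M) (hz : Algebra.adjoin L {z} = ⊤) (f : M ≃ₐ[K] M)
    (hf : ∀ x : L, f (algebraMap L M x) = algebraMap L M x) (hfz : f z = z) : f = 1 := by
  ext y
  have hy : y ∈ Algebra.adjoin L ({z} : Set M) := by rw [hz]; trivial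
  show f y = y
  induction hy using Algebra.adjoin_induction with
  | mem x hx => rw [Set.mem_singleton_iff.1 hx]; exact hfz
  | algebraMap x => exact hf x
  | add x y _ _ hx hy => rw [map_add, hx, hy]
  | mul x y _ _ hx hy => rw [map_mul, hx, hy]

theorem GEX_one {K M : Type} [Field K] [Field M] [Algebra K M] {m : ℕ} [NeZero m] {z : M}
    (hz : IsPrimitiveRoot z m) (f : M ≃ₐ[K] M) (hfz : f z = z) : hz.autToPow K f = 1 := by
  have h1 := hz.autToPow_spec K f
  rw [hfz] at h1
  by_cases hm : m = 1
  · subst hm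
    exact Subsingleton.elim _ _
  · have hm1 : 1 < m := by
      have := NeZero.ne m
      omega
    have h2 : ((hz.autToPow K f : (ZMod m)ˣ) : ZMod m).val = 1 :=
      hz.pow_inj (ZMod.val_lt _) hm1 (by rw [h1, pow_one])
    apply Units.ext
    rw [← ZMod.natCast_zmod_val ((hz.autToPow K f : (ZMod m)ˣ) : ZMod m), h2]
    simp

theorem GEX : GEX_stmt := by
  intro B m hM K L M _ _ _ _ _ _ _ _ _ _ _ _ z σ hB hz htop
  haveI : NeZero m := ⟨hM.1.ne'⟩
  haveI : IsGalois L M := IsGalois.tower_top_of_isGalois K L M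
  let κ := hz.autToPow K
  let ι : (M ≃ₐ[L] M) →* (M ≃ₐ[K] M) := AlgEquiv.restrictScalarsHom K
  have hκι : Function.Injective (κ.comp ι) := by
    rw [injective_iff_map_eq_one]
    intro t ht
    have h1 := hz.autToPow_spec K (ι t)
    have h2 : ((hz.autToPow K (ι t) : (ZMod m)ˣ) : ZMod m) = 1 := by
      rw [show hz.autToPow K (ι t) = 1 from ht]
      rfl
    have h3 : (ι t) z = z := by
      by_cases hm : m = 1
      · subst hm
        have : z = 1 := by simpa using hz.pow_eq_one
        rw [this, map_one]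
      · haveI : Fact (1 < m) := ⟨by have := NeZero.ne m; omega⟩
        rw [h2, ZMod.val_one, pow_one] at h1
        exact h1.symm
    have h4 : ι t = 1 := GEX_id z htop (ι t) (fun x => t.commutes x) h3
    ext y
    exact congrArg (fun f : M ≃ₐ[K] M => f y) h4
  let H : Subgroup (ZMod m)ˣ := (κ.comp ι).range
  have hHc : Nat.card H = Module.finrank L M := by
    rw [← IsGalois.card_aut_eq_finrank L M]
    exact (Nat.card_congr (MonoidHom.ofInjective hκι).toEquiv).symm
  have hphi : m.totient ≤ Module.finrank ℚ M := by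
    have h1 := Polynomial.cyclotomic_eq_minpoly_rat hz hM.1
    have h2 := minpoly.natDegree_le (A := ℚ) z
    rwa [← h1, Polynomial.natDegree_cyclotomic] at h2
  have hcard : H.index * Nat.card H = m.totient := by
    rw [Subgroup.index_mul_card, Nat.card_eq_fintype_card, ZMod.card_units_eq_totient]
  have hH0 : 0 < Nat.card H := Nat.card_pos
  have hidx : H.index ≤ B := by
    have h1 : H.index * Nat.card H ≤ Module.finrank ℚ L * Nat.card H := by
      rw [hcard, hHc, Module.finrank_mul_finrank]
      exact hphi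
    exact (Nat.le_of_mul_le_mul_right h1 hH0).trans hB
  have hidx0 : H.index ≠ 0 := Subgroup.index_ne_zero_of_finite
  have hn0 : 0 < orderOf σ := orderOf_pos σ
  have hnB : orderOf σ ≤ B := by
    refine le_trans ?_ hB
    have h1 : orderOf σ ≤ Module.finrank K L := by
      rw [← IsGalois.card_aut_eq_finrank K L]
      exact orderOf_le_card
    have h2 := Module.finrank_mul_finrank ℚ K L
    have h3 : 0 < Module.finrank ℚ K := Module.finrank_pos
    nlinarith
  obtain ⟨h, ⟨t, rfl⟩, hdvd⟩ := hM.2 H hidx hidx0 (κ (σ.liftNormal M)) (orderOf σ) hn0 hnB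
  have hg : ∀ x : L, (σ.liftNormal M * ι t) (algebraMap L M x) = algebraMap L M (σ x) := by
    intro x
    show (σ.liftNormal M) (t (algebraMap L M x)) = _
    rw [t.commutes, AlgEquiv.liftNormal_commutes]
  refine ⟨σ.liftNormal M * ι t, ((κ (σ.liftNormal M * ι t) : (ZMod m)ˣ) : ZMod m).val, hg,
    (hz.autToPow_spec K _).symm, ?_⟩
  intro k hk
  have h1 := GEX_one hz _ hk
  have h2 : κ (σ.liftNormal M * ι t) ^ k = 1 := by
    rw [← map_pow]
    exact h1
  have h3 : orderOf σ ∣ k := by
    refine hdvd.trans ?_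
    rw [orderOf_dvd_iff_pow_eq_one]
    rw [map_mul] at h2
    exact h2
  have h4 : σ ^ k = 1 := orderOf_dvd_iff_pow_eq_one.1 h3
  have h5 : ∀ (j : ℕ) (x : L), ((σ.liftNormal M * ι t) ^ j) (algebraMap L M x) =
      algebraMap L M ((σ ^ j) x) := by
    intro j
    induction j with
    | zero => intro x; simp
    | succ j ih =>
      intro x
      rw [pow_succ, pow_succ]
      show ((σ.liftNormal M * ι t) ^ j) ((σ.liftNormal M * ι t) (algebraMap L M x)) = _
      rw [hg, ih]
      rfl
  exact GEX_id z htop _ (fun x => by rw [h5, h4]; rfl) hk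

end Pool.Agent.CH
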