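import Pool.Agent.helper82.CH.SpecA

/-!
# Project CH, row MEX: the cyclotomic extension
-/

set_option autoImplicit false

open NumberField Complex Pool.Agent.UN

namespace Pool.Agent.CH

open Polynomial in
theorem MEX_norm (K L M : Type) [Field K] [CharZero K] [Field L] [Field M] [Algebra K L] [Algebra L M] [Algebra K M]
    [IsScalarTower K L M] [IsGalois K L] [FiniteDimensional K L] (m : ℕ) [NeZero m] [IsCyclotomicExtension {m} L M] :
    IsGalois K M := by
  obtain ⟨f, hf⟩ := Normal.exists_isSplittingField K L
  have h1 : IsSplittingField L M ((X ^ m - 1 : K[X]).map (algebraMap K L)) := by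
    have h2 := IsCyclotomicExtension.isSplittingField_X_pow_sub_one m L M
    rwa [Polynomial.map_sub, Polynomial.map_pow, Polynomial.map_X, Polynomial.map_one]
  by_cases hf0 : f = 0
  · subst hf0
    have h3 : IsSplittingField K M (X ^ m - 1 : K[X]) := by
      have hX : (X ^ m - 1 : K[X]) ≠ 0 := (monic_X_pow_sub_C (1 : K) (NeZero.ne m)).ne_zero
      have hf1 : IsSplittingField K L (1 : K[X]) := by
        refine ⟨by simp, ?_⟩
        have := hf.adjoin_rootSet'
        simpa using this
      have h4 := IsSplittingField.mul (F := K) (K := L) (L := M) (1 : K[X]) (X ^ m - 1) one_ne_zero hX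
      rwa [one_mul] at h4
    have h5 : Normal K M := Normal.of_isSplittingField (X ^ m - 1 : K[X])
    exact { to_isSeparable := inferInstance, to_normal := h5 }
  · have hX : (X ^ m - 1 : K[X]) ≠ 0 := (monic_X_pow_sub_C (1 : K) (NeZero.ne m)).ne_zero
    have h4 := IsSplittingField.mul (F := K) (K := L) (L := M) f (X ^ m - 1) hf0 hX
    have h5 : Normal K M := Normal.of_isSplittingField (f * (X ^ m - 1 : K[X]))
    exact { to_isSeparable := inferInstance, to_normal := h5 }

theorem MEX : MEX_stmt := by
  intro K L _ _ _ _ _ _ m hm
  haveI : NeZero m := ⟨hm.ne'⟩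
  haveI : NeZero ((m : ℕ) : L) := NeZero.charZero
  haveI : IsScalarTower K L (CyclotomicField m L) := inferInstance
  haveI : IsCyclotomicExtension {m} L (CyclotomicField m L) := CyclotomicField.isCyclotomicExtension m L
  haveI : NumberField (CyclotomicField m L) := IsCyclotomicExtension.numberField {m} L _
  exact ⟨CyclotomicField m L, inferInstance, inferInstance, inferInstance, inferInstance, inferInstance,
    IsCyclotomicExtension.zeta m L (CyclotomicField m L), MEX_norm K L _ m,
    IsCyclotomicExtension.zeta_spec m L _,
    IsCyclotomicExtension.adjoin_primitive_root_eq_top (IsCyclotomicExtension.zeta_spec m L _)⟩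

end Pool.Agent.CH
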